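import Pool.Agent.Y33.SM.Stm
import Pool.Agent.TH64.FreeBase

/-!
# Project SM, job STEPF: transport of the step to quotients of the free group (helper905)
-/

set_option autoImplicit false

namespace Pool.Agent.Y905.SM

open Pool.Agent.TH54.BU Pool.Agent.Y33.SM

section transport

variable {A B : Type} [Group A] [Group B] (e : A ≃* B)

/-- transport of a length -/
def tr (w : GH B) : GH A where
  len a := w.len (e a)
  D := w.D
  len_one := by rw [map_one]; exact w.len_one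
  eq_one g h := by
    have := w.eq_one _ h
    exact (map_eq_one_iff e e.injective).1 this
  len_inv g := by rw [map_inv]; exact w.len_inv _
  len_mul g h := by rw [map_mul]; exact w.len_mul _ _
  fp' u v x z := by
    simp only [map_mul, map_inv]
    exact w.fp' _ _ _ _
  step g k hk := by
    obtain ⟨h, h1, h2⟩ := w.step (e g) k hk
    refine ⟨e.symm h, ?_, ?_⟩
    · simpa using h1
    · simpa using h2

variable {e} {wA : GH A} {wB : GH B} (hw : ∀ q, wA.len q = wB.len (e q))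

include hw

theorem d_eq (u v : A) : wA.d u v = wB.d (e u) (e v) := by
  unfold GH.d
  rw [hw, map_mul, map_inv]

theorem nw (h : NW wB) : NW wA where
  fb n := by
    have h1 := (h.fb n).preimage (f := e) e.injective.injOn
    refine h1.subset ?_
    intro g hg
    show wB.len (e g) ≤ n
    rw [← hw]
    exact hg
  odd g hg := by
    have h1 : (e g) ^ 2 = 1 := by rw [← map_pow, hg, map_one]
    exact (map_eq_one_iff e e.injective).1 (h.odd _ h1)
  com a g ha hf hc := by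
    have h1 := h.com (e a) (e g) (fun h2 => ha ((map_eq_one_iff e e.injective).1 h2))
      ((e.injective.isOfFinOrder_iff (f := e.toMonoidHom)).2 hf) (by rw [← map_mul, hc, map_mul])
    exact (e.injective.isOfFinOrder_iff (f := e.toMonoidHom)).1 h1

theorem str {h : A} (hs : Str wB (e h)) : Str wA h := by
  intro k
  rw [hw, map_pow]
  exact hs k

omit hw in
theorem nc {h h' : A} (hs : NC (e h) (e h')) : NC h h' := by
  intro g p q hp hq
  apply hs (e g) p q hp
  have := congrArg e hq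
  simpa using this

theorem geod {γ : ℕ → A} {l : ℕ} (h : wA.Geod γ l) : wB.Geod (fun j => e (γ j)) l := by
  refine ⟨fun i hi => ?_, ?_⟩
  · rw [← d_eq hw]
    exact h.1 i hi
  · rw [← d_eq hw]
    exact h.2

theorem det {Λ r s l : ℕ} {γ : ℕ → A} (h : Det wB.d Λ r s (fun j => e (γ j)) l) :
    Det wA.d Λ r s γ l := by
  obtain ⟨i, m, j, σ, N, h1, h2, h3, h4, h5, h6, h7, h8, h9, h10⟩ := h
  refine ⟨i, m, j, fun k => e.symm (σ k), N, h1, h2, h3, h4, h5, ?_, ?_, ?_, ?_, ?_⟩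
  · simp [h6]
  · simp [h7]
  · intro k hk
    rw [d_eq hw]
    simpa using h8 k hk
  · intro k k' hk hk'
    rw [d_eq hw]
    simpa using h9 k k' hk hk'
  · intro k hk
    rw [d_eq hw]
    simpa using h10 k hk

theorem ph {Λ r : ℕ} {h : A} (hp : PH wB Λ (e h) r) : PH wA Λ h r := by
  intro E
  obtain ⟨s, hs⟩ := hp E
  refine ⟨s, fun γ l hγ hl hx => ?_⟩
  apply det hw
  apply hs _ l (geod hw hγ) hl
  obtain ⟨g, p, q, h1, h2⟩ := hx
  refine ⟨e g, p, q, ?_, ?_⟩
  · rw [d_eq hw] at h1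
    simpa using h1
  · rw [d_eq hw] at h2
    simpa using h2

theorem cut {h : A} {C r D0 t1 : ℕ} (hc : Cut wB.d (e h) C r D0 t1) :
    Cut wA.d h C r D0 t1 := by
  intro t ht ht' σ N h1 h2 h3 h4
  apply hc t ht ht' (fun k => e (σ k)) N
  · intro k hk
    rw [← d_eq hw]
    exact h1 k hk
  · simp [h2]
  · simp [h3]
  · intro k hk
    have := h4 k hk
    rw [d_eq hw, map_one] at this
    exact this

end transport

/-- the length is the quotient of the norm -/
structure IQ (N : Subgroup F2) [N.Normal] (len : F2 ⧸ N → ℕ) : Prop where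
  le : ∀ f : F2, len (f : F2 ⧸ N) ≤ f.norm
  lift : ∀ q : F2 ⧸ N, ∃ f : F2, (f : F2 ⧸ N) = q ∧ f.norm = len q

theorem qd_eq (N : Subgroup F2) [N.Normal] (u v : F2 ⧸ N) : qd N u v = qd N 1 (u⁻¹ * v) := by
  simp [qd]

theorem IQ.qd {N : Subgroup F2} [N.Normal] {len : F2 ⧸ N → ℕ} (h : IQ N len) (q : F2 ⧸ N) :
    len q = qd N 1 q := by
  obtain ⟨f, hf, hn⟩ := h.lift q
  unfold Y33.SM.qd
  apply le_antisymm
  · refine le_csInf ⟨_, f, by simpa using hf, rfl⟩ ?_
    rintro k ⟨f', h1, rfl⟩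
    have := h.le f'
    rw [h1] at this
    simpa using this
  · rw [← hn]
    exact Nat.sInf_le ⟨f, by simpa using hf, rfl⟩

theorem iq_of {N : Subgroup F2} [N.Normal] {len : F2 ⧸ N → ℕ} (h : ∀ q, len q = qd N 1 q) :
    IQ N len where
  le f := by
    rw [h]
    exact Nat.sInf_le ⟨f, by simp, rfl⟩
  lift q := by
    obtain ⟨f0, hf0⟩ := QuotientGroup.mk_surjective q
    have hne : {k | ∃ f : F2, (f : F2 ⧸ N) = (1 : F2 ⧸ N)⁻¹ * q ∧ f.norm = k}.Nonempty :=
      ⟨_, f0, by simpa using hf0, rfl⟩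
    obtain ⟨f, hf, hn⟩ := Nat.sInf_mem hne
    refine ⟨f, by simpa using hf, ?_⟩
    rw [h]
    exact hn

theorem qd_fun {N : Subgroup F2} [N.Normal] {w : GH (F2 ⧸ N)} (h : ∀ q, w.len q = qd N 1 q) :
    qd N = w.d := by
  funext u v
  rw [qd_eq, ← h]
  rfl

/-- **Job STEPF.** -/
theorem t (hS : S_STEP) : S_STEPF := by
  obtain ⟨n0, hn0⟩ := hS
  refine ⟨n0, fun n hn hodd N hN i i' r0 hL C r => ?_⟩
  obtain ⟨w, hwq, hNW, hs, hs', hNC, hPH⟩ := hL
  obtain ⟨D0, hD0⟩ := hn0 n hn hodd (F2 ⧸ N) w (gn N i) (gn N i') hNW hs hs' hNC r0 hPH C r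
  refine ⟨D0, fun R => ?_⟩
  obtain ⟨M, hM, w', s, hQL, hNW', hh, hh', hNC', hR, hcut, hdet, hPH'⟩ := hD0 R
  -- the homomorphism
  let f : F2 →* (F2 ⧸ N) ⧸ M := (QuotientGroup.mk' M).comp (QuotientGroup.mk' N)
  have hfs : Function.Surjective f :=
    (QuotientGroup.mk'_surjective M).comp (QuotientGroup.mk'_surjective N)
  have hfa : ∀ x : F2, f x = ((x : F2 ⧸ N) : (F2 ⧸ N) ⧸ M) := fun x => rfl
  let e : F2 ⧸ f.ker ≃* (F2 ⧸ N) ⧸ M := QuotientGroup.quotientKerEquivOfSurjective f hfs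
  have hea : ∀ x : F2, e (x : F2 ⧸ f.ker) = ((x : F2 ⧸ N) : (F2 ⧸ N) ⧸ M) := fun x => rfl
  have hgn : ∀ j, e (gn f.ker j) = (gn N j : (F2 ⧸ N) ⧸ M) := fun j => rfl
  have hw : ∀ q, (tr e w').len q = w'.len (e q) := fun q => rfl
  have hIN : IQ N w.len := iq_of hwq
  have hIQ : IQ f.ker (tr e w').len := by
    refine ⟨fun x => ?_, fun q => ?_⟩
    · rw [hw, hea]
      exact (hQL.le _).trans (hIN.le x)
    · obtain ⟨g, hg, hg'⟩ := hQL.lift (e q)
      obtain ⟨x, hx, hx'⟩ := hIN.lift g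
      refine ⟨x, ?_, ?_⟩
      · apply e.injective
        rw [hea, hx, hg]
      · rw [hx', hg', hw]
  have hwq' : ∀ q, (tr e w').len q = qd f.ker 1 q := hIQ.qd
  have hqd : qd f.ker = (tr e w').d := qd_fun hwq'
  refine ⟨f.ker, inferInstance, s, ?_, ?_, ?_, ?_, ?_⟩
  · intro x hx
    rw [MonoidHom.mem_ker, hfa, (QuotientGroup.eq_one_iff x).2 hx]
    rfl
  · refine ⟨tr e w', hwq', nw hw hNW', str hw ?_, str hw ?_, nc (e := e) ?_, ph hw ?_⟩
    · rw [hgn]; exact hh'
    · rw [hgn]; exact hh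
    · rw [hgn, hgn]; exact hNC'
    · rw [hgn]; exact hPH'
  · intro x hx
    rw [← hwq] at hx
    rw [← hwq', ← hwq, hw, hea]
    exact hR _ hx
  · intro t1
    rw [hqd]
    apply cut hw
    rw [hgn]
    exact hcut t1
  · intro γ l h1 h2 h3
    rw [hqd] at h1 h2 ⊢
    apply det hw
    exact hdet _ l (geod hw ⟨h1, h2⟩) h3

/-- the free group of rank two -/
def fw : GH F2 where
  len := FreeGroup.norm
  D := 0
  len_one := FreeGroup.norm_one
  eq_one g h := FreeGroup.norm_eq_zero.1 h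
  len_inv g := FreeGroup.norm_inv_eq
  len_mul g h := FreeGroup.norm_mul_le g h
  fp' := Pool.Agent.TH64.FreeBase.freeHyp.fp'
  step := Pool.Agent.TH64.FreeBase.freeHyp.step

/-- **Job BASE.** -/
theorem b : S_BASE := by
  intro n
  let e : F2 ⧸ (⊥ : Subgroup F2) ≃* F2 := QuotientGroup.quotientBot
  have hea : ∀ x : F2, e (x : F2 ⧸ (⊥ : Subgroup F2)) = x := fun x => rfl
  have hw : ∀ q, (tr e fw).len q = fw.len (e q) := fun q => rfl
  have hgn : ∀ j, e (gn ⊥ j) = FreeGroup.of j := fun j => rfl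
  have hIQ : IQ ⊥ (tr e fw).len := by
    refine ⟨fun x => le_of_eq rfl, fun q => ?_⟩
    obtain ⟨x, rfl⟩ := QuotientGroup.mk_surjective q
    exact ⟨x, rfl, rfl⟩
  have hS : ∀ j : Fin 2, Str fw (FreeGroup.of j : F2) := fun j k => FreeGroup.norm_of_pow j k
  refine ⟨tr e fw, hIQ.qd, nw hw ?_, str hw ?_, str hw ?_, nc (e := e) ?_, ph hw ?_⟩
  · refine ⟨Pool.Agent.TH64.FreeBase.finite_norm_le, fun g hg => ?_, fun a g ha hf _ => ?_⟩
    · exact Pool.Agent.TH64.FreeBase.free_torsion_free g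
        (isOfFinOrder_iff_pow_eq_one.2 ⟨2, by norm_num, hg⟩)
    · exact absurd (Pool.Agent.TH64.FreeBase.free_torsion_free a hf) ha
  · rw [hgn]; exact hS 0
  · rw [hgn]; exact hS 1
  · rw [hgn, hgn]
    intro g p q hp hq
    let φ : F2 →* Multiplicative ℤ :=
      FreeGroup.lift (fun i : Fin 2 => if i = 1 then Multiplicative.ofAdd (1 : ℤ) else 1)
    have h0 : φ (FreeGroup.of 0) = 1 := by simp [φ]
    have h1 : φ (FreeGroup.of 1) = Multiplicative.ofAdd (1 : ℤ) := by simp [φ]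
    have h2 := congrArg φ hq
    rw [map_mul, map_mul, map_inv, map_zpow, map_zpow, h0, h1, one_zpow, mul_comm (φ g),
      mul_assoc, mul_inv_cancel, mul_one, ← ofAdd_zsmul] at h2
    apply hp
    have h3 := congrArg Multiplicative.toAdd h2
    simpa using h3
  · intro E
    refine ⟨0, fun γ l _ _ _ => ?_⟩
    refine ⟨0, 0, 0, fun _ => γ 0, 0, le_rfl, le_rfl, Nat.zero_le _, le_rfl, le_rfl, rfl, rfl, ?_, ?_,
      ?_⟩
    · intro k hk
      omega
    · intro k k' hk hk'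
      omega
    · intro k hk
      omega

end Pool.Agent.Y905.SM

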