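import Pool.Agent.Y33.SM.Stm
import Pool.Agent.TH54.BU.Cent

/-!
# Project SM, job CRN: choice of the corners (helper905)
-/

set_option autoImplicit false

namespace Pool.Agent.Y905.SM

open Pool.Agent.TH54.BU Pool.Agent.Y33.SM

variable {G : Type} [Group G] {w : GH G} {h h' : G}

theorem mix_of_acy {K B : ℕ} (h : w.Acy K B) : w.Mix K B 0 := by
  intro q hq
  exact ⟨fun g hg hf => (h q hq g hg).1 hf, Or.inl fun g hg h' hh' => (h q hq g hg).2 h' hh'⟩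

theorem str_inf (hs : Str w h) : ¬ IsOfFinOrder h := by
  intro hf
  obtain ⟨n, hn, h1⟩ := isOfFinOrder_iff_pow_eq_one.1 hf
  have := hs n
  rw [h1, w.len_one] at this
  omega

theorem str_zpow (hs : Str w h) (k : ℤ) : w.len (h ^ k) = k.natAbs := by
  rw [w.len_zpow]
  exact hs _

theorem str_inv (hs : Str w h) : Str w h⁻¹ := by
  intro k
  rw [inv_pow, w.len_inv]
  exact hs k

theorem nc_inv (hn : NC h h') : NC h⁻¹ h'⁻¹ := by
  intro g p q hp he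
  apply hn g (-p) (-q) (neg_ne_zero.2 hp)
  simpa using he

/-- `h'` does not commute with its conjugate by a power of `h` -/
theorem not_comm (nw : NW w) (sh : Str w h) (sh' : Str w h') (hnc : NC h h') {K B T : ℕ}
    (hK : 100 * w.D + 100 ≤ K) (hS : w.Stab T) (hM : w.Mix K B 0) {j : ℤ} (hj : j ≠ 0)
    (hc : h ^ j * h' * (h ^ j)⁻¹ * h' = h' * (h ^ j * h' * (h ^ j)⁻¹)) : False := by
  have hinf := str_inf sh'
  obtain ⟨z, hz, c, hzc⟩ := w.cyc hK hS hM hinf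
  simp only at hzc
  have hzh : z * h' = h' * z := by
    rw [← hzc, ← zpow_one_add, ← zpow_add_one, add_comm]
  have hc0 : c ≠ 0 := by
    rintro rfl
    rw [zpow_zero] at hzc
    exact hinf (hzc ▸ IsOfFinOrder.one)
  have h1 := w.ct hK hS hM hinf hc hzh
  obtain ⟨b, hb⟩ := hz.2 _ h1
  simp only at hb
  have h2 : h ^ j * z ^ c * (h ^ j)⁻¹ = z ^ b := by rw [hzc, hb]
  obtain ⟨m, hm⟩ := w.nrm hK hS hM hz (nw.odd _) hc0 h2
  simp only at hm
  have hm0 : m ≠ 0 := by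
    rintro rfl
    rw [zpow_zero] at hm
    have := str_zpow sh j
    rw [← hm, w.len_one] at this
    omega
  apply hnc 1 m (j * c) hm0
  rw [one_mul, inv_one, mul_one, zpow_mul, ← hm, ← hzc, ← zpow_mul, ← zpow_mul, mul_comm]

/-- for given `u` at most one corner is bad -/
theorem pair (hA : S_ACY) (nw : NW w) (sh : Str w h) (sh' : Str w h') (hnc : NC h h') :
    ∃ C : ℕ, ∀ (u : G) (j1 j2 : ℕ), j1 ≤ 3 → j2 ≤ 3 → j1 ≠ j2 →
      (∀ N : ℕ, w.len u + N ≤ w.len (u * h ^ j1 * h' ^ N) + C) ∨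
        ∀ N : ℕ, w.len u + N ≤ w.len (u * h ^ j2 * h' ^ N) + C := by
  obtain ⟨T, hT, hKB⟩ := hA G w nw
  obtain ⟨B, hB⟩ := hKB (100 * w.D + 100)
  refine ⟨2 * B + 10, fun u j1 j2 hj1 hj2 hne => ?_⟩
  by_contra hcon
  push Not at hcon
  obtain ⟨⟨N1, hN1⟩, N2, hN2⟩ := hcon
  have key : ∀ (j N : ℕ), j ≤ 3 → w.len (u * h ^ j * h' ^ N) + (2 * B + 10) < w.len u + N →
      w.d u⁻¹ (h ^ j * h' ^ B) + B ≤ w.len u + w.D + 3 ∧
      w.d (h ^ j * h' ^ B) 1 ≤ B + 3 := by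
    intro j N hj hN
    have e1 : ∀ v : G, w.d u⁻¹ v = w.len (u * v) := fun v => by unfold GH.d; rw [inv_inv]
    have hup : ∀ k : ℕ, w.len (h ^ j * h' ^ k) ≤ j + k := fun k =>
      (w.len_mul _ _).trans (by rw [sh, sh'])
    have hlo : ∀ k : ℕ, k ≤ w.len (h ^ j * h' ^ k) + j := fun k => by
      have h1 := w.len_mul (h ^ j)⁻¹ (h ^ j * h' ^ k)
      rw [inv_mul_cancel_left, w.len_inv, sh, sh'] at h1
      omega
    have hBN : B ≤ N := by
      have h1 := w.len_mul (u * (h ^ j * h' ^ N)) (h ^ j * h' ^ N)⁻¹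
      rw [mul_inv_cancel_right, w.len_inv, ← mul_assoc] at h1
      have h2 := hup N
      omega
    have h1 := w.fp u⁻¹ (h ^ j * h' ^ B) 1 (h ^ j * h' ^ N)
    have h2 : w.d (h ^ j * h' ^ B) (h ^ j * h' ^ N) = N - B := by
      unfold GH.d
      rw [mul_inv_rev, mul_assoc, inv_mul_cancel_left]
      have : (h' ^ B)⁻¹ * h' ^ N = h' ^ (N - B) := by
        rw [← pow_mul_pow_sub h' hBN, inv_mul_cancel_left]
      rw [this, sh']
    have h3 : w.d 1 (h ^ j * h' ^ N) = w.len (h ^ j * h' ^ N) := w.d_one _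
    have h4 : w.d u⁻¹ 1 = w.len u := by rw [e1, mul_one]
    have h5 : w.d u⁻¹ (h ^ j * h' ^ N) = w.len (u * h ^ j * h' ^ N) := by rw [e1, mul_assoc]
    have h6 : w.d (h ^ j * h' ^ B) 1 = w.len (h ^ j * h' ^ B) := w.d_one' _
    have h7 := hup B
    have h8 := hlo N
    rw [h2, h3, h4, h5, h6] at h1
    refine ⟨?_, by omega⟩
    omega
  obtain ⟨a1, a2⟩ := key j1 N1 hj1 hN1
  obtain ⟨b1, b2⟩ := key j2 N2 hj2 hN2
  have h1 := w.fp (h ^ j1 * h' ^ B) (h ^ j2 * h' ^ B) u⁻¹ 1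
  have h4 : w.d u⁻¹ 1 = w.len u := by unfold GH.d; rw [inv_inv, mul_one]
  rw [h4, w.d_comm (h ^ j1 * h' ^ B) u⁻¹, w.d_comm (h ^ j2 * h' ^ B) u⁻¹] at h1
  have h5 : w.d (h ^ j1 * h' ^ B) (h ^ j2 * h' ^ B) ≤ 2 * w.D + 6 := by omega
  -- the element `c`
  have hc : (h ^ j1 * h' ^ B)⁻¹ * (h ^ j2 * h' ^ B) =
      (h' ^ B)⁻¹ * h ^ ((j2 : ℤ) - j1) * h' ^ B := by
    rw [mul_inv_rev, sub_eq_neg_add, zpow_add, zpow_neg, zpow_natCast, zpow_natCast]
    group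
  unfold GH.d at h5
  rw [hc] at h5
  have hj : (j2 : ℤ) - j1 ≠ 0 := by omega
  set c : G := h ^ ((j2 : ℤ) - j1) with hcdef
  have hcl : w.len c ≤ 3 := by
    rw [hcdef, str_zpow sh]
    omega
  have hh1 : w.len h' = 1 := by simpa using sh' 1
  have hm1 : h' ∈ w.SD (100 * w.D + 100) (h' ^ B) := by
    refine ⟨by rw [hh1]; omega, ?_⟩
    have : (h' ^ B)⁻¹ * h' * h' ^ B = h' := by
      rw [mul_assoc, ← pow_succ', pow_succ, inv_mul_cancel_left]
    rw [this, hh1]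
    omega
  have hm2 : c * h' * c⁻¹ ∈ w.SD (100 * w.D + 100) (h' ^ B) := by
    constructor
    · have e1 := w.len_mul (c * h') c⁻¹
      have e2 := w.len_mul c h'
      rw [w.len_inv] at e1
      omega
    · have e0 : (h' ^ B)⁻¹ * (c * h' * c⁻¹) * h' ^ B =
          ((h' ^ B)⁻¹ * c * h' ^ B) * h' * ((h' ^ B)⁻¹ * c * h' ^ B)⁻¹ := by
        have : (h' ^ B) * h' * (h' ^ B)⁻¹ = h' := by
          rw [← pow_succ, pow_succ', mul_inv_cancel_right]
        calc (h' ^ B)⁻¹ * (c * h' * c⁻¹) * h' ^ B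
            = (h' ^ B)⁻¹ * c * h' * c⁻¹ * h' ^ B := by group
          _ = (h' ^ B)⁻¹ * c * ((h' ^ B) * h' * (h' ^ B)⁻¹) * c⁻¹ * h' ^ B := by rw [this]
          _ = _ := by group
      rw [e0]
      set y := (h' ^ B)⁻¹ * c * h' ^ B with hy
      have e1 := w.len_mul (y * h') y⁻¹
      have e2 := w.len_mul y h'
      rw [w.len_inv] at e1
      omega
  have hcomm := (hB (h' ^ B) (by rw [sh']) _ hm2).2 _ hm1
  exact not_comm nw sh sh' hnc le_rfl hT (mix_of_acy hB) hj hcomm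

/-- **Job CRN.** -/
theorem t_crn (hA : S_ACY) : S_CRN := by
  intro G _ w h h' nw sh sh' hnc
  obtain ⟨C1, hC1⟩ := pair hA nw sh sh' hnc
  obtain ⟨C2, hC2⟩ := pair hA nw (str_inv sh) (str_inv sh') (nc_inv hnc)
  have e2 : ∀ (u : G) (j N : ℕ), w.len (u⁻¹ * h⁻¹ ^ j * h'⁻¹ ^ N) = w.len (h' ^ N * h ^ j * u) := by
    intro u j N
    rw [← w.len_inv]
    congr 1
    simp only [mul_inv_rev, inv_inv, inv_pow]
    group
  refine ⟨C1 + C2, fun u => ?_⟩
  -- the last corner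
  obtain ⟨j', hj1, hj3, hj'⟩ : ∃ j' : ℕ, 1 ≤ j' ∧ j' ≤ 3 ∧
      ∀ N : ℕ, w.len u + N ≤ w.len (h' ^ N * h ^ j' * u) + C2 := by
    rcases hC2 u⁻¹ 1 2 (by norm_num) (by norm_num) (by norm_num) with h1 | h1
    · refine ⟨1, le_rfl, by norm_num, fun N => ?_⟩
      have := h1 N
      rwa [e2, w.len_inv] at this
    · refine ⟨2, by norm_num, by norm_num, fun N => ?_⟩
      have := h1 N
      rwa [e2, w.len_inv] at this
  obtain ⟨j1, j2, hne, a1, a3, b1, b3, h12⟩ : ∃ j1 j2 : ℕ, j1 ≠ j2 ∧ 1 ≤ j1 ∧ j1 ≤ 3 ∧ 1 ≤ j2 ∧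
      j2 ≤ 3 ∧ ∀ N : ℕ, w.len u + N ≤ w.len (u * h ^ j1 * h' ^ N) + C1 ∧
        w.len u + N ≤ w.len (u * h ^ j2 * h' ^ N) + C1 := by
    rcases hC1 u 1 2 (by norm_num) (by norm_num) (by norm_num) with h1 | h1
    · rcases hC1 u 2 3 (by norm_num) (by norm_num) (by norm_num) with h2 | h2
      · exact ⟨1, 2, by norm_num, by norm_num, by norm_num, by norm_num, by norm_num,
          fun N => ⟨h1 N, h2 N⟩⟩
      · exact ⟨1, 3, by norm_num, by norm_num, by norm_num, by norm_num, by norm_num,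
          fun N => ⟨h1 N, h2 N⟩⟩
    · rcases hC1 u 1 3 (by norm_num) (by norm_num) (by norm_num) with h2 | h2
      · exact ⟨2, 1, by norm_num, by norm_num, by norm_num, by norm_num, by norm_num,
          fun N => ⟨h1 N, h2 N⟩⟩
      · exact ⟨2, 3, by norm_num, by norm_num, by norm_num, by norm_num, by norm_num,
          fun N => ⟨h1 N, h2 N⟩⟩
  refine ⟨j1, j2, j', hne, a1, a3, b1, b3, hj1, hj3, fun N => ?_⟩
  obtain ⟨c1, c2⟩ := h12 N
  have c3 := hj' N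
  exact ⟨by omega, by omega, by omega⟩

end Pool.Agent.Y905.SM

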